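import Pool.Agent.helper51.QS.SpecC

set_option autoImplicit false

namespace Pool.Agent.QS

open Pool.Agent.PC MvPolynomial

universe u

/-- membership in an ideal is local -/
theorem CORE_loc {A : Type u} [CommRing A] (J : Ideal A) (r : A)
    (h : ∀ m : Ideal A, m.IsMaximal → ∃ x : A, x ∉ m ∧ x * r ∈ J) : r ∈ J := by
  by_contra hr
  let C : Ideal A := Submodule.comap (LinearMap.toSpanSingleton A A r) J
  have hC : ∀ x, x ∈ C ↔ x * r ∈ J := fun x => Iff.rfl
  have h1 : C ≠ ⊤ := by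
    intro h2
    have h3 : (1 : A) ∈ C := by rw [h2]; exact Submodule.mem_top
    rw [hC, one_mul] at h3
    exact hr h3
  obtain ⟨m, hm, hCm⟩ := Ideal.exists_le_maximal C h1
  obtain ⟨x, hx, hxr⟩ := h m hm
  exact hx (hCm ((hC x).mpr hxr))

theorem CORE (hLCF : LCF_stmt.{u}) (hNRA : NRA_stmt.{u}) (hINV : INV_stmt.{u}) (hGAL : GAL_stmt.{u})
    (hTBF : TBF_stmt.{u}) (hHTP : HTP_stmt.{u}) (hRAD : RAD_stmt.{u}) (hRPM : RPM_stmt.{u})
    (hWLD : WLD_stmt.{u}) (hTRC : TRC_stmt.{u}) (hTRI : TRI_stmt.{u}) (hNRM : NRM_stmt.{u})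
    (hDSC : DSC_stmt.{u}) : CORE_stmt.{u} := by
  intro k R A F K G _ _ _ _ _ _ _ _ _ _ _ _ _ _ _ _ _ _ _ _ _ _ _ _ _ _ _ _ _ _ _ _ _ n p _ _ hn hnp hdim hG S B hplt
  obtain ⟨hB, ω, μ, hω, hμ, hloc⟩ := hplt
  have hS : S.IsPrime := hB.1
  have hS1 : S.height = 1 := hB.2.1
  obtain ⟨⟨xK, hxK⟩, hfr, hm⟩ := hLCF k A K n hdim
  have hUFD : ∀ (m : Ideal A) [m.IsMaximal], UniqueFactorizationMonoid (Localization.AtPrime m) :=
    fun m _ => (hm m).2.2
  have hIA : IsIntegrallyClosed A := hNRA A hUFD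
  obtain ⟨hft, hint, hic⟩ := hINV k R A G
  have hIR : IsIntegrallyClosed R := hic hIA
  have hfA : Algebra.FiniteType k A := inferInstance
  have hfR : Algebra.FiniteType k R := hft hfA
  have hNA : IsNoetherianRing A := Algebra.FiniteType.isNoetherianRing k A
  have hNR : IsNoetherianRing R := Algebra.FiniteType.isNoetherianRing k R
  obtain ⟨hfd, hsep, hgal⟩ := hGAL k R A F K G
  have halg : Algebra.IsAlgebraic F K := inferInstance
  obtain ⟨x, hx⟩ := hTBF k F K n xK hxK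
  obtain ⟨hht, hlift⟩ := hHTP R A G
  obtain ⟨hR1, hR2, hR3⟩ := hRAD R A G S hS hS1
  have hCA : CharP A p := charP_of_injective_algebraMap (algebraMap k A).injective p
  have hker : RingHom.ker (algebraMap R A) ≤ S := by
    rw [(RingHom.injective_iff_ker_eq_bot _).mp (FaithfulSMul.algebraMap_injective R A)]
    exact bot_le
  -- nontrivial action
  have hact : ∀ g : G, g ≠ 1 → ∃ a : A, g • a ≠ a := by
    intro g hg
    obtain ⟨P, hP, hPS⟩ := Ideal.exists_ideal_over_prime_of_isIntegral_of_isDomain (S := A) S hker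
    obtain ⟨Q, hQ, -, hQ1, -⟩ := hlift S P hS hS1 hP hPS.ge
    obtain ⟨a, ha⟩ := hG g hg Q hQ hQ1
    refine ⟨a, fun h => ha ?_⟩
    rw [h, sub_self]
    exact Q.zero_mem
  set I : Ideal A := (S.map (algebraMap R A)).radical with hI
  have hIm : ∀ m : Ideal A, m.IsPrime → S ≤ m.comap (algebraMap R A) → I ≤ m := by
    intro m hm hSm
    exact (hm.radical_le_iff).mpr (Ideal.map_le_iff_le_comap.mpr hSm)
  have hmI : ∀ m : Ideal A, I ≤ m → S ≤ m.comap (algebraMap R A) := by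
    intro m hIm
    exact Ideal.map_le_iff_le_comap.mp (Ideal.le_radical.trans hIm)
  have hcart : ∀ m : Ideal A, m.IsMaximal → S ≤ m.comap (algebraMap R A) → ∃ (g : F) (t : A), g ≠ 0 ∧ t ≠ 0 ∧
      DiscrAt R ω μ (m.comap (algebraMap R A)) g ∧ Eqn m I t ∧
      ∀ (D : Fin n → Derivation k K K) (y : Fin n → A), (∀ i j, D i (algebraMap A K (y j)) = if i = j then 1 else 0) →
        ∀ Ψ : Form k F n →ₗ[F] K, IsPsi D Ψ → ∃ u s : A, s ∉ m ∧
          algebraMap F K g / Ψ ω ^ μ = algebraMap A K t ^ μ * algebraMap A K u / algebraMap A K s := by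
    intro m hm hSm
    have hM : (m.comap (algebraMap R A)).IsMaximal := Ideal.isMaximal_comap_of_isIntegral_of_isMaximal m
    obtain ⟨g, hg0, hCar, hDis⟩ := hloc _ hM
    obtain ⟨t, ht0, hE, hform⟩ := hRPM k R A F K G n hG S B ω μ g hω hg0 hμ hB m (hUFD m) hSm hCar
    exact ⟨g, t, hg0, ht0, hDis, hE, hform⟩
  -- no wild stabilisers
  have hwild : ∀ m : Ideal A, m.IsMaximal → S ≤ m.comap (algebraMap R A) → ∀ σ : G, (∀ a ∈ m, σ • a ∈ m) →
      orderOf σ ≠ p := by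
    intro m hm hSm σ hσ
    obtain ⟨g, t, hg0, ht0, hDis, hE, hform⟩ := hcart m hm hSm
    exact hWLD k R A F K G n p x hx hfr hn hnp hact ω μ g hω hg0 hμ m hDis t
      (hIm m hm.isPrime hSm hE.1) hform σ hσ
  obtain ⟨c, r0, hc, hr0⟩ := hTRC R A G p S hwild
  have htri := hTRI k R A F K G n p x hx hfr hdim hn S ω μ hω hμ hcart
  refine hDSC R A G S hS hS1 ⟨c, r0, hc, hr0⟩ ?_
  intro r s hs hrs
  refine CORE_loc _ _ ?_
  intro m hm
  by_cases hSm : S ≤ m.comap (algebraMap R A)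
  · obtain ⟨g, t, hg0, ht0, hDis, hE, hform⟩ := hcart m hm hSm
    have hIm' := hIm m hm.isPrime hSm
    obtain ⟨N, a, hN, ha⟩ := hrs
    have heq : ∃ (N : ℕ) (a : ℕ → A), 0 < N ∧ (algebraMap R A r) ^ N + ∑ i ∈ Finset.range N,
        a i * (algebraMap R A r) ^ i * (algebraMap R A s) ^ (N - i) ∈ I := by
      refine ⟨N, fun i => algebraMap R A (a i), hN, ?_⟩
      have h1 : algebraMap R A (r ^ N + ∑ i ∈ Finset.range N, a i * r ^ i * s ^ (N - i)) ∈ I :=
        Ideal.le_radical (Ideal.mem_map_of_mem _ ha)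
      simpa only [map_add, map_sum, map_mul, map_pow] using h1
    obtain ⟨w, hw, hwr⟩ := hNRM A m I t ht0 (Ideal.radical_isRadical _) hIm' hE
      (fun Q hQ hQm hIQ => htri Q hQ hIQ m t hm hQm hE) (algebraMap R A r) (algebraMap R A s)
      (hR2 s hs) heq
    refine ⟨w, hw, ?_⟩
    have h1 : Ideal.span {algebraMap R A s, t} ≤ Ideal.span {algebraMap R A s} ⊔ I := by
      rw [Ideal.span_insert]
      exact sup_le_sup le_rfl ((Ideal.span_singleton_le_iff_mem I).mpr hE.1)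
    exact h1 hwr
  · have h1 : ¬ I ≤ m := fun h => hSm (hmI m h)
    obtain ⟨w, hwI, hwm⟩ := Set.not_subset.mp h1
    exact ⟨w, hwm, Ideal.mem_sup_right (I.mul_mem_right _ hwI)⟩

end Pool.Agent.QS
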