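import Pool.Agent.helper51.QS.SpecA
import Pool.Agent.helper2.PC.TRF

set_option autoImplicit false

namespace Pool.Agent.QS

open Pool.Agent.PC MvPolynomial

universe u

/-- the differentials of a dual system are a basis -/
theorem PSI_basis {k K : Type u} [Field k] [Field K] [Algebra k K] {n : ℕ} (hn : 0 < n)
    (D : Fin n → Derivation k K K) (y : Fin n → K) (hD : ∀ i j, D i (y j) = if i = j then 1 else 0)
    (hf : Module.finrank K (Ω[K⁄k]) = n) :
    ∃ e : Module.Basis (Fin n) K (Ω[K⁄k]), ∀ i, e i = KaehlerDifferential.D k K (y i) := by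
  have hli : LinearIndependent K (fun i => KaehlerDifferential.D k K (y i)) := by
    rw [Fintype.linearIndependent_iff]
    intro g hg i
    have h1 := congrArg (D i).liftKaehlerDifferential hg
    rw [map_sum, map_zero] at h1
    have h2 : ∀ j, (D i).liftKaehlerDifferential (g j • KaehlerDifferential.D k K (y j)) =
        if i = j then g j else 0 := by
      intro j
      rw [map_smul, Derivation.liftKaehlerDifferential_comp_D, hD]
      split_ifs
      · simp
      · simp
    rw [Finset.sum_congr rfl fun j _ => h2 j, Finset.sum_ite_eq Finset.univ i] at h1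
    simpa using h1
  have : Nonempty (Fin n) := ⟨⟨0, hn⟩⟩
  refine ⟨basisOfLinearIndependentOfCardEqFinrank hli (by rw [Fintype.card_fin, hf]), fun i => ?_⟩
  rw [coe_basisOfLinearIndependentOfCardEqFinrank]

theorem PSI_one {k F : Type u} [Field k] [Field F] [Algebra k F] (n : ℕ)
    (h : n = 0 ∨ (0 < n ∧ Module.finrank F (Ω[F⁄k]) = n)) : Module.finrank F (Form k F n) = 1 := by
  rcases h with rfl | ⟨hn, hfr⟩
  · rw [(exteriorPower.zeroEquiv F (Ω[F⁄k])).finrank_eq, Module.finrank_self]
  · have : Module.Finite F (Ω[F⁄k]) := Module.finite_of_finrank_pos (by rw [hfr]; exact hn)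
    rw [exteriorPower.finrank_eq, hfr, Nat.choose_self]

theorem PSI : PSI_stmt.{u} := by
  intro k F K _ _ _ _ _ _ _ _ _ n D y hD hf
  have hmain : (n = 0 ∨ (0 < n ∧ Module.finrank F (Ω[F⁄k]) = n)) ∧
      ∃ f : Fin n → F, JJ D (fun i => algebraMap F K (f i)) ≠ 0 := by
    rcases Nat.eq_zero_or_pos n with rfl | hn
    · refine ⟨Or.inl rfl, fun i => i.elim0, ?_⟩
      unfold JJ
      rw [Matrix.det_isEmpty]
      exact one_ne_zero
    · obtain ⟨e, he⟩ := PSI_basis hn D y hD hf
      obtain ⟨h1, h2⟩ := TRF_ne k F K D hn e y he hD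
      exact ⟨Or.inr ⟨hn, h1⟩, h2⟩
  obtain ⟨hn, f, hJ⟩ := hmain
  have hdim := PSI_one (k := k) (F := F) n hn
  have hω : TRF_P k F K D (dd k f) ≠ 0 := by
    rw [TRF_P_dd]
    exact hJ
  have hω0 : dd k f ≠ 0 := by
    intro h
    rw [h, map_zero] at hω
    exact hω rfl
  refine ⟨TRF_P k F K D, TRF_P_dd k F K D, ?_, ?_⟩
  · intro ξ hξ
    obtain ⟨c, hc⟩ := (finrank_eq_one_iff_of_nonzero' _ hω0).mp hdim ξ
    rw [← hc, map_smul, smul_eq_zero] at hξ
    rcases hξ with h | h
    · rw [← hc, h, zero_smul]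
    · exact absurd h hω
  · intro ω ξ hω'
    obtain ⟨c, hc⟩ := (finrank_eq_one_iff_of_nonzero' _ hω').mp hdim ξ
    exact ⟨c, hc.symm⟩

end Pool.Agent.QS
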