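import Pool.Agent.helper51.QS.SpecB

set_option autoImplicit false

namespace Pool.Agent.QS

open Pool.Agent.PC MvPolynomial

universe u

theorem PSU_zero (k : Type u) [Field k] : UniqueFactorizationMonoid (MvPowerSeries (Fin 0) k) := by
  rw [UniqueFactorizationMonoid.iff_exists_prime_factors]
  intro f hf
  refine ⟨0, by simp, ?_⟩
  have h1 : IsUnit f := by
    rw [MvPowerSeries.isUnit_iff_constantCoeff, isUnit_iff_ne_zero]
    intro h
    refine hf ?_
    ext m
    have hm : m = 0 := Subsingleton.elim _ _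
    rw [hm, map_zero]
    exact h
  rw [Multiset.prod_zero]
  exact (associated_one_iff_isUnit.mpr h1).symm

theorem PSU_succ (hPS1 : PS1_stmt.{u}) (hPS2 : PS2_stmt.{u}) (hPS3 : PS3_stmt.{u}) (k : Type u) [Field k]
    [Infinite k] (n : ℕ) (ih : UniqueFactorizationMonoid (MvPowerSeries (Fin n) k)) :
    UniqueFactorizationMonoid (MvPowerSeries (Fin (n + 1)) k) := by
  rw [UniqueFactorizationMonoid.iff_exists_prime_factors]
  intro f hf
  obtain ⟨e, d, hd⟩ := hPS2 k n f hf
  have hcomp := hPS3 k n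
  have hdom : IsDomain (MvPowerSeries (Fin n) k) := NoZeroDivisors.to_isDomain _
  let ε : MvPowerSeries (Fin (n + 1)) k ≃+* PowerSeries (MvPowerSeries (Fin n) k) :=
    e.trans (MvPowerSeries.finSuccEquiv k n).toRingEquiv
  have hε : ε f = MvPowerSeries.finSuccEquiv k n (e f) := rfl
  have h0 : (ε f).map (IsLocalRing.residue (MvPowerSeries (Fin n) k)) ≠ 0 := by
    intro h
    have h1 := congrArg (PowerSeries.coeff d) h
    rw [PowerSeries.coeff_map, map_zero, IsLocalRing.residue_eq_zero_iff, IsLocalRing.mem_maximalIdeal,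
      mem_nonunits_iff, MvPowerSeries.isUnit_iff_constantCoeff, isUnit_iff_ne_zero, not_not, hε] at h1
    have h2 : MvPowerSeries.coeff (0 : Fin n →₀ ℕ)
        (PowerSeries.coeff d (MvPowerSeries.finSuccEquiv k n (e f))) = 0 := h1
    rw [MvPowerSeries.coeff_coeff_finSuccEquiv] at h2
    have h3 : Finsupp.cons d (0 : Fin n →₀ ℕ) = Finsupp.single 0 d := by
      ext i
      refine Fin.cases ?_ (fun j => ?_) i
      · simp
      · simp
    rw [h3] at h2
    exact hd h2
  obtain ⟨s, hs, hsf⟩ := hPS1 (MvPowerSeries (Fin n) k) (ε f) h0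
  refine ⟨s.map ε.symm, ?_, ?_⟩
  · intro b hb
    obtain ⟨a, ha, rfl⟩ := Multiset.mem_map.mp hb
    exact (MulEquiv.prime_iff ε.symm.toMulEquiv).mpr (hs a ha)
  · have h1 := hsf.map ε.symm
    rw [map_multiset_prod, RingEquiv.symm_apply_apply] at h1
    exact h1

theorem PSU (hPS1 : PS1_stmt.{u}) (hPS2 : PS2_stmt.{u}) (hPS3 : PS3_stmt.{u}) : PSU_stmt.{u} := by
  intro k _ _ n
  induction n with
  | zero => exact PSU_zero k
  | succ n ih => exact PSU_succ hPS1 hPS2 hPS3 k n ih

end Pool.Agent.QS
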